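import Mathlib
import Pool.Agent.U73.LS.Stm2
import Pool.Agent.U399.LS.CORE

set_option autoImplicit false

/-!
Project LS (helper73), package DEN (helper358): the local conditions are periodic, and their
densities.
-/

open Finset Filter Topology
open Pool.Agent.U73.LR Pool.Agent.U73.LS

namespace Pool.Agent.U358.LS.DEN

theorem rc_add {m : ℕ} {P Q R : ℤ → ℤ → Prop} (h : ∀ a b, P a b ↔ Q a b ∨ R a b)
    (hd : ∀ a b, ¬ (Q a b ∧ R a b)) : rc m P = rc m Q + rc m R := by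
  classical
  unfold rc
  rw [← add_div]
  congr 1
  rw [← Nat.cast_add, ← Finset.card_union_of_disjoint]
  · congr 2
    ext q
    simp only [Finset.mem_filter, Finset.mem_union, h]
    tauto
  · rw [Finset.disjoint_filter]
    intro q _ h1 h2
    exact hd _ _ ⟨h1, h2⟩

theorem rc_congr {m : ℕ} {P Q : ℤ → ℤ → Prop} (h : ∀ a b, P a b ↔ Q a b) : rc m P = rc m Q := by
  have : P = Q := by funext a b; exact propext (h a b)
  rw [this]

theorem per_congr {m : ℕ} {P Q : ℤ → ℤ → Prop} (h : ∀ a b, P a b ↔ Q a b) (hQ : Per m Q) :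
    Per m P := by
  have : P = Q := by funext a b; exact propext (h a b)
  rw [this]; exact hQ

theorem dvd_cong {m M a a' : ℤ} (h : m ∣ M) (ha : a ≡ a' [ZMOD M]) : m ∣ a ↔ m ∣ a' := by
  have h1 : a % m = a' % m := ha.of_dvd h
  rw [Int.dvd_iff_emod_eq_zero, Int.dvd_iff_emod_eq_zero, h1]

theorem per_cs {M : ℕ} {m : ℤ} (h : m ∣ (M : ℤ)) : Per M (fun a b => m ∣ a ^ 3 - b ^ 2) :=
  fun _ _ _ _ ha hb => dvd_cong h ((ha.pow 3).sub (hb.pow 2))

theorem per_a {M : ℕ} {m : ℤ} (h : m ∣ (M : ℤ)) : Per M (fun a _ => m ∣ a) :=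
  fun _ _ _ _ ha _ => dvd_cong h ha

theorem per_b {M : ℕ} {m : ℤ} (h : m ∣ (M : ℤ)) : Per M (fun _ b => m ∣ b) :=
  fun _ _ _ _ _ hb => dvd_cong h hb

theorem per_bmod {M : ℕ} {m : ℤ} (r : ℤ) (h : m ∣ (M : ℤ)) : Per M (fun _ b => b % m = r) := by
  intro a b a' b' _ hb
  have h1 : b % m = b' % m := hb.of_dvd h
  simp only [h1]

theorem per_not {M : ℕ} {P : ℤ → ℤ → Prop} (h : Per M P) : Per M (fun a b => ¬ P a b) :=
  fun _ _ _ _ ha hb => not_congr (h _ _ _ _ ha hb)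

theorem per_or {M : ℕ} {P Q : ℤ → ℤ → Prop} (h : Per M P) (h' : Per M Q) :
    Per M (fun a b => P a b ∨ Q a b) :=
  fun _ _ _ _ ha hb => or_congr (h _ _ _ _ ha hb) (h' _ _ _ _ ha hb)

theorem per_const {M : ℕ} (q : Prop) : Per M (fun _ _ => q) := fun _ _ _ _ _ _ => Iff.rfl

theorem per_K2 {M : ℕ} (h : (64 : ℤ) ∣ (M : ℤ)) : Per M K2 := by
  unfold K2
  refine per_or ((per_not (per_a ?_)).and ((per_bmod 3 ?_).and (per_cs h)))
    ((per_a ?_).and (per_bmod 8 ?_))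
  · exact dvd_trans (by norm_num) h
  · exact dvd_trans (by norm_num) h
  · exact dvd_trans (by norm_num) h
  · exact dvd_trans (by norm_num) h

theorem per_K3 {M : ℕ} (h : (27 : ℤ) ∣ (M : ℤ)) : Per M K3 := by
  unfold K3
  refine per_or ((per_not (per_a ?_)).and (per_cs h))
    ((per_a ?_).and ((per_not (per_a ?_)).and (per_b h)))
  · exact dvd_trans (by norm_num) h
  · exact dvd_trans (by norm_num) h
  · exact dvd_trans (by norm_num) h

theorem per_Sp (p g : ℕ) : Per (p ^ (g + 7)) (Sp p) := by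
  by_cases h2 : p = 2
  · subst h2
    have : Sp 2 = K2 := by funext a b; simp [Sp]
    rw [this]
    apply per_K2
    push_cast
    rw [show (64 : ℤ) = 2 ^ 6 by norm_num]
    exact pow_dvd_pow 2 (by omega)
  · by_cases h3 : p = 3
    · subst h3
      have : Sp 3 = K3 := by funext a b; simp [Sp]
      rw [this]
      apply per_K3
      push_cast
      rw [show (27 : ℤ) = 3 ^ 3 by norm_num]
      exact pow_dvd_pow 3 (by omega)
    · have : Sp p = fun a b => ¬ ((p : ℤ) ∣ a ∧ (p : ℤ) ∣ b) := by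
        funext a b; simp [Sp, h2, h3]
      rw [this]
      have hd : (p : ℤ) ∣ ((p ^ (g + 7) : ℕ) : ℤ) := by
        push_cast
        exact dvd_pow_self _ (by omega)
      exact per_not ((per_a hd).and (per_b hd))

theorem ee_le (p : ℕ) : ee p ≤ 6 := by unfold ee; split_ifs <;> omega

theorem per_G (p g : ℕ) : Per (p ^ (g + 7)) (G p g) := by
  unfold G
  refine (per_Sp p g).and (per_or (per_const _) (per_cs ?_))
  push_cast
  have := ee_le p
  exact pow_dvd_pow _ (by omega)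

theorem box_neg (X : ℝ) (a b : ℤ) : (a, b) ∈ box X ↔ (a, -b) ∈ box X := by
  unfold Pool.Agent.U73.LR.box
  simp only [Finset.mem_product, Finset.mem_Icc]
  constructor <;> rintro ⟨h1, h2, h3⟩ <;> exact ⟨h1, by omega, by omega⟩

theorem cnt_neg (X : ℝ) (P : ℤ → ℤ → Prop) : cnt X (fun a b => P a (-b)) = cnt X P := by
  classical
  rw [cnt_def X (fun a b => P a (-b)), cnt_def X P]
  congr 1
  refine Finset.card_nbij' (fun q => (q.1, -q.2)) (fun q => (q.1, -q.2)) ?_ ?_ ?_ ?_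
  · rintro ⟨a, b⟩ h
    simp only [Finset.coe_filter, Set.mem_ofPred_eq] at h ⊢
    exact ⟨(box_neg X a b).1 h.1, h.2⟩
  · rintro ⟨a, b⟩ h
    simp only [Finset.coe_filter, Set.mem_ofPred_eq, neg_neg] at h ⊢
    exact ⟨(box_neg X a b).1 h.1, h.2⟩
  · rintro ⟨a, b⟩ _; simp
  · rintro ⟨a, b⟩ _; simp

theorem rc_neg {M : ℕ} (hM : 0 < M) {P : ℤ → ℤ → Prop} (hP : Per M P) :
    rc M (fun a b => P a (-b)) = rc M P := by
  have hP' : Per M (fun a b => P a (-b)) := fun _ _ _ _ ha hb => hP _ _ _ _ ha hb.neg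
  have h1 := dens_per hM hP'
  have h2 := dens_per hM hP
  simp only [cnt_neg] at h1
  have := tendsto_nhds_unique h1 h2
  linarith

/-- the core -/
theorem core {p : ℕ} (hp : p.Prime) {k : ℕ} (hk : 1 ≤ k) {M : ℕ} (hM : 0 < M)
    (hd : (p : ℤ) ^ k ∣ (M : ℤ)) :
    rc M (fun a b => ¬ (p : ℤ) ∣ a ∧ (p : ℤ) ^ k ∣ a ^ 3 - b ^ 2) = (1 - 1 / (p : ℝ)) / (p : ℝ) ^ k := by
  rw [← Pool.Agent.U399.LS.CORE.t_CORE p hp k hk]
  have h1 : (p : ℤ) ∣ (p : ℤ) ^ k := dvd_pow_self _ (by omega)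
  apply rc_eq hM (pow_pos hp.pos k)
  · exact (per_not (per_a (h1.trans hd))).and (per_cs hd)
  · refine (per_not (per_a ?_)).and (per_cs ?_)
    · push_cast; exact h1
    · push_cast; exact dvd_rfl

/-- the half of the core at `2` -/
theorem half {k : ℕ} (hk : 2 ≤ k) {M : ℕ} (hM : 0 < M) (hd : (2 : ℤ) ^ k ∣ (M : ℤ)) :
    rc M (fun a b => ¬ (2 : ℤ) ∣ a ∧ b % 4 = 3 ∧ (2 : ℤ) ^ k ∣ a ^ 3 - b ^ 2) = 1 / (2 : ℝ) ^ (k + 2) := by
  have h0 := core Nat.prime_two (k := k) (by omega) hM (by exact_mod_cast hd)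
  have h4 : (4 : ℤ) ∣ (M : ℤ) := by
    refine dvd_trans ?_ hd
    rw [show (4 : ℤ) = 2 ^ 2 by norm_num]
    exact pow_dvd_pow 2 hk
  have h2 : (2 : ℤ) ∣ (M : ℤ) := dvd_trans (by norm_num) h4
  have h1 : rc M (fun a b => ¬ ((2 : ℕ) : ℤ) ∣ a ∧ ((2 : ℕ) : ℤ) ^ k ∣ a ^ 3 - b ^ 2) =
      rc M (fun a b => ¬ (2 : ℤ) ∣ a ∧ b % 4 = 3 ∧ (2 : ℤ) ^ k ∣ a ^ 3 - b ^ 2) +
      rc M (fun a b => ¬ (2 : ℤ) ∣ a ∧ b % 4 = 1 ∧ (2 : ℤ) ^ k ∣ a ^ 3 - b ^ 2) := by
    apply rc_add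
    · intro a b
      push_cast
      constructor
      · rintro ⟨ha, hab⟩
        have h3 : (2 : ℤ) ∣ a ^ 3 - b ^ 2 := (dvd_pow_self _ (by omega)).trans hab
        have hb : ¬ (2 : ℤ) ∣ b := by
          intro hb
          apply ha
          have h5 : (2 : ℤ) ∣ a ^ 3 := by
            have := dvd_add h3 (dvd_pow hb (show 2 ≠ 0 by norm_num))
            simpa using this
          exact Int.prime_two.dvd_of_dvd_pow h5
        have h6 : b % 4 = 1 ∨ b % 4 = 3 := by omega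
        rcases h6 with h6 | h6
        · exact Or.inr ⟨ha, h6, hab⟩
        · exact Or.inl ⟨ha, h6, hab⟩
      · rintro (⟨ha, _, hab⟩ | ⟨ha, _, hab⟩) <;> exact ⟨ha, hab⟩
    · rintro a b ⟨⟨_, h, _⟩, ⟨_, h', _⟩⟩
      omega
  have h5 : rc M (fun a b => ¬ (2 : ℤ) ∣ a ∧ b % 4 = 1 ∧ (2 : ℤ) ^ k ∣ a ^ 3 - b ^ 2) =
      rc M (fun a b => ¬ (2 : ℤ) ∣ a ∧ b % 4 = 3 ∧ (2 : ℤ) ^ k ∣ a ^ 3 - b ^ 2) := by
    rw [← rc_neg (P := fun a b => ¬ (2 : ℤ) ∣ a ∧ b % 4 = 3 ∧ (2 : ℤ) ^ k ∣ a ^ 3 - b ^ 2) hM]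
    · apply rc_congr
      intro a b
      simp only [neg_sq]
      have : b % 4 = 1 ↔ (-b) % 4 = 3 := by omega
      rw [this]
    · exact (per_not (per_a h2)).and ((per_bmod 3 h4).and (per_cs hd))
  rw [h5] at h1
  rw [h1] at h0
  have h7 : (1 - 1 / ((2 : ℕ) : ℝ)) / ((2 : ℕ) : ℝ) ^ k = 2 * (1 / (2 : ℝ) ^ (k + 2)) := by
    rw [pow_add]; push_cast; field_simp; norm_num
  rw [h7] at h0
  linarith

theorem rc_B2 : rc 32 (fun a b => (16 : ℤ) ∣ a ∧ b % 32 = 8) = 1 / 512 := by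
  rw [rc_def 32 (fun a b => (16 : ℤ) ∣ a ∧ b % 32 = 8)]
  have : ((range 32 ×ˢ range 32).filter (fun x : ℕ × ℕ => (16 : ℤ) ∣ (x.1 : ℤ) ∧ (x.2 : ℤ) % 32 = 8)).card = 2 := by
    decide +kernel
  rw [this]
  norm_num

theorem rc_B3 : rc 27 (fun a b => (3 : ℤ) ∣ a ∧ ¬ (9 : ℤ) ∣ a ∧ (27 : ℤ) ∣ b) = 2 / 243 := by
  rw [rc_def 27 (fun a b => (3 : ℤ) ∣ a ∧ ¬ (9 : ℤ) ∣ a ∧ (27 : ℤ) ∣ b)]
  have : ((range 27 ×ˢ range 27).filter (fun x : ℕ × ℕ => (3 : ℤ) ∣ (x.1 : ℤ) ∧ ¬ (9 : ℤ) ∣ (x.1 : ℤ) ∧ (27 : ℤ) ∣ (x.2 : ℤ))).card = 6 := by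
    decide +kernel
  rw [this]
  norm_num

theorem den2 (g : ℕ) : rc (2 ^ (g + 7)) (G 2 g) = sd 2 * gd 2 g := by
  have hM : 0 < 2 ^ (g + 7) := by positivity
  by_cases hg : g = 0
  · subst hg
    have h1 : rc (2 ^ (0 + 7)) (G 2 0) =
        rc (2 ^ (0 + 7)) (fun a b => ¬ (2 : ℤ) ∣ a ∧ b % 4 = 3 ∧ (2 : ℤ) ^ 6 ∣ a ^ 3 - b ^ 2) +
        rc (2 ^ (0 + 7)) (fun a b => (16 : ℤ) ∣ a ∧ b % 32 = 8) := by
      apply rc_add
      · intro a b
        simp only [G, Sp, K2, true_or, and_true, if_true]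
        norm_num
      · rintro a b ⟨⟨h, _⟩, ⟨h', _⟩⟩
        exact h (dvd_trans (by norm_num) h')
    have h2 := half (k := 6) (by norm_num) (M := 2 ^ (0 + 7)) (by norm_num) (by norm_num)
    have h3 : rc (2 ^ (0 + 7)) (fun a b => (16 : ℤ) ∣ a ∧ b % 32 = 8) = 1 / 512 := by
      rw [← rc_B2]
      apply rc_eq (by norm_num) (by norm_num)
      · exact (per_a (by norm_num)).and (per_bmod 8 (by norm_num))
      · exact (per_a (by norm_num)).and (per_bmod 8 (by norm_num))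
    rw [h1, h2, h3]
    simp only [sd, gd, if_true]
    norm_num
  · have h1 : rc (2 ^ (g + 7)) (G 2 g) =
        rc (2 ^ (g + 7)) (fun a b => ¬ (2 : ℤ) ∣ a ∧ b % 4 = 3 ∧ (2 : ℤ) ^ (g + 7) ∣ a ^ 3 - b ^ 2) := by
      apply rc_congr
      intro a b
      have he : g + 1 + ee 2 = g + 7 := by simp [ee]
      simp only [G, Sp, K2, hg, false_or, if_true, he]
      push_cast
      constructor
      · rintro ⟨(⟨h1, h2, h3⟩ | ⟨⟨u, hu⟩, h2⟩), h4⟩
        · exact ⟨h1, h2, h4⟩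
        · exfalso
          obtain ⟨v, hv⟩ : ∃ v, b = 32 * v + 8 := ⟨b / 32, by omega⟩
          have h5 : (2 : ℤ) ^ 8 ∣ a ^ 3 - b ^ 2 := (pow_dvd_pow 2 (by omega)).trans h4
          have h6 : a ^ 3 - b ^ 2 = 64 * (64 * u ^ 3 - (4 * v + 1) ^ 2) := by
            rw [hu, hv]; ring
          rw [h6] at h5
          obtain ⟨w, hw⟩ := h5
          have h7 : 64 * u ^ 3 - (4 * v + 1) ^ 2 = 4 * w := by linarith
          have h8 : (4 * v + 1) ^ 2 = 4 * (4 * v ^ 2 + 2 * v) + 1 := by ring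
          rw [h8] at h7
          omega
      · rintro ⟨h1, h2, h3⟩
        refine ⟨Or.inl ⟨h1, h2, ?_⟩, h3⟩
        rw [show (64 : ℤ) = 2 ^ 6 by norm_num]
        exact (pow_dvd_pow 2 (by omega)).trans h3
    rw [h1, half (k := g + 7) (by omega) hM (by push_cast; exact dvd_rfl)]
    simp only [sd, gd, hg, if_true, if_false]
    rw [show g + 7 + 2 = g + 9 by ring, pow_add]
    push_cast
    field_simp
    norm_num

theorem den3 (g : ℕ) : rc (3 ^ (g + 7)) (G 3 g) = sd 3 * gd 3 g := by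
  have hM : 0 < 3 ^ (g + 7) := by positivity
  by_cases hg : g = 0
  · subst hg
    have h1 : rc (3 ^ (0 + 7)) (G 3 0) =
        rc (3 ^ (0 + 7)) (fun a b => ¬ ((3 : ℕ) : ℤ) ∣ a ∧ ((3 : ℕ) : ℤ) ^ 3 ∣ a ^ 3 - b ^ 2) +
        rc (3 ^ (0 + 7)) (fun a b => (3 : ℤ) ∣ a ∧ ¬ (9 : ℤ) ∣ a ∧ (27 : ℤ) ∣ b) := by
      apply rc_add
      · intro a b
        simp only [G, Sp, K3, true_or, and_true]
        norm_num
      · rintro a b ⟨⟨h, _⟩, ⟨h', _⟩⟩
        exact h (by exact_mod_cast h')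
    have h2 := core Nat.prime_three (k := 3) (by norm_num) (M := 3 ^ (0 + 7)) (by norm_num) (by norm_num)
    have h3 : rc (3 ^ (0 + 7)) (fun a b => (3 : ℤ) ∣ a ∧ ¬ (9 : ℤ) ∣ a ∧ (27 : ℤ) ∣ b) = 2 / 243 := by
      rw [← rc_B3]
      apply rc_eq (by norm_num) (by norm_num)
      · exact (per_a (by norm_num)).and ((per_not (per_a (by norm_num))).and (per_b (by norm_num)))
      · exact (per_a (by norm_num)).and ((per_not (per_a (by norm_num))).and (per_b (by norm_num)))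
    rw [h1, h2, h3]
    simp only [sd, gd, if_true]
    norm_num
  · have h1 : rc (3 ^ (g + 7)) (G 3 g) =
        rc (3 ^ (g + 7)) (fun a b => ¬ ((3 : ℕ) : ℤ) ∣ a ∧ ((3 : ℕ) : ℤ) ^ (g + 4) ∣ a ^ 3 - b ^ 2) := by
      apply rc_congr
      intro a b
      have he : g + 1 + ee 3 = g + 4 := by simp [ee]
      have h32 : ¬ (3 : ℕ) = 2 := by norm_num
      simp only [G, Sp, K3, hg, false_or, h32, if_true, if_false, he]
      push_cast
      constructor
      · rintro ⟨(⟨h1, h2⟩ | ⟨⟨u, hu⟩, h2, ⟨v, hv⟩⟩), h4⟩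
        · exact ⟨h1, h4⟩
        · exfalso
          have h5 : (3 : ℤ) ^ 4 ∣ a ^ 3 - b ^ 2 := (pow_dvd_pow 3 (by omega)).trans h4
          have h6 : a ^ 3 - b ^ 2 = 27 * (u ^ 3 - 27 * v ^ 2) := by
            rw [hu, hv]; ring
          rw [h6] at h5
          obtain ⟨w, hw⟩ := h5
          have h7 : u ^ 3 = 3 * (w + 9 * v ^ 2) := by linarith
          have h8 : (3 : ℤ) ∣ u := Int.prime_three.dvd_of_dvd_pow ⟨_, h7⟩
          obtain ⟨t, ht⟩ := h8
          exact h2 ⟨t, by rw [hu, ht]; ring⟩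
      · rintro ⟨h1, h3⟩
        refine ⟨Or.inl ⟨h1, ?_⟩, h3⟩
        rw [show (27 : ℤ) = 3 ^ 3 by norm_num]
        exact (pow_dvd_pow 3 (by omega)).trans h3
    rw [h1, core Nat.prime_three (k := g + 4) (by omega) hM (by push_cast; exact pow_dvd_pow 3 (by omega))]
    have h32 : ¬ (3 : ℕ) = 2 := by norm_num
    simp only [sd, gd, hg, h32, if_true, if_false]
    rw [pow_add]
    push_cast
    field_simp
    norm_num

theorem den5 {p : ℕ} (hp : p.Prime) (h2 : p ≠ 2) (h3 : p ≠ 3) (g : ℕ) :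
    rc (p ^ (g + 7)) (G p g) = sd p * gd p g := by
  have hM : 0 < p ^ (g + 7) := pow_pos hp.pos _
  have hpr : (0 : ℝ) < p := by exact_mod_cast hp.pos
  have hpi : Prime (p : ℤ) := Nat.prime_iff_prime_int.1 hp
  have hd1 : (p : ℤ) ∣ ((p ^ (g + 7) : ℕ) : ℤ) := by
    push_cast; exact dvd_pow_self _ (by omega)
  by_cases hg : g = 0
  · subst hg
    have h1 : rc (p ^ (0 + 7)) (fun _ _ => True) = rc (p ^ (0 + 7)) (G p 0) +
        rc (p ^ (0 + 7)) (fun a b => (p : ℤ) ∣ a ∧ (p : ℤ) ∣ b) := by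
      apply rc_add
      · intro a b
        simp only [G, Sp, h2, h3, if_false, true_or, and_true]
        tauto
      · rintro a b ⟨h, h'⟩
        simp only [G, Sp, h2, h3, if_false, true_or, and_true] at h
        exact h h'
    have h4 : rc (p ^ (0 + 7)) (fun a b => (p : ℤ) ∣ a ∧ (p : ℤ) ∣ b) = 1 / (p : ℝ) ^ 2 := by
      rw [rc_eq hM hp.pos (P := fun a b => (p : ℤ) ∣ a ∧ (p : ℤ) ∣ b)]
      · classical
        rw [rc_def p (fun a b => (p : ℤ) ∣ a ∧ (p : ℤ) ∣ b)]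
        have : (range p ×ˢ range p).filter
            (fun x : ℕ × ℕ => (p : ℤ) ∣ (x.1 : ℤ) ∧ (p : ℤ) ∣ (x.2 : ℤ)) = {(0, 0)} := by
          ext ⟨x, y⟩
          simp only [Finset.mem_filter, Finset.mem_product, Finset.mem_range, Finset.mem_singleton,
            Prod.mk.injEq, Int.natCast_dvd_natCast]
          constructor
          · rintro ⟨⟨h5, h6⟩, h7, h8⟩
            exact ⟨Nat.eq_zero_of_dvd_of_lt h7 h5, Nat.eq_zero_of_dvd_of_lt h8 h6⟩
          · rintro ⟨rfl, rfl⟩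
            exact ⟨⟨hp.pos, hp.pos⟩, dvd_zero _, dvd_zero _⟩
        rw [this]
        simp
      · exact (per_a hd1).and (per_b hd1)
      · exact (per_a dvd_rfl).and (per_b dvd_rfl)
    rw [rc_true _ hM, h4] at h1
    simp only [sd, gd, h2, h3, if_true, if_false, mul_one]
    linarith
  · have h1 : rc (p ^ (g + 7)) (G p g) =
        rc (p ^ (g + 7)) (fun a b => ¬ (p : ℤ) ∣ a ∧ (p : ℤ) ^ (g + 1) ∣ a ^ 3 - b ^ 2) := by
      apply rc_congr
      intro a b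
      have he : g + 1 + ee p = g + 1 := by simp [ee, h2, h3]
      simp only [G, Sp, h2, h3, hg, false_or, if_false, he]
      constructor
      · rintro ⟨h4, h5⟩
        refine ⟨fun h6 => h4 ⟨h6, ?_⟩, h5⟩
        have h7 : (p : ℤ) ∣ a ^ 3 - b ^ 2 := (dvd_pow_self _ (by omega)).trans h5
        have h8 : (p : ℤ) ∣ b ^ 2 := by
          have := dvd_sub (dvd_pow h6 (show 3 ≠ 0 by norm_num)) h7
          simpa using this
        exact hpi.dvd_of_dvd_pow h8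
      · rintro ⟨h4, h5⟩
        exact ⟨fun h6 => h4 h6.1, h5⟩
    rw [h1, core hp (k := g + 1) (by omega) hM (by push_cast; exact pow_dvd_pow _ (by omega))]
    simp only [sd, gd, hg, h2, h3, if_false]
    rw [pow_succ]
    have : (p : ℝ) + 1 ≠ 0 := by positivity
    field_simp
    ring

theorem t_DEN : S_DEN := by
  refine ⟨per_G, fun p hp g => ?_⟩
  by_cases h2 : p = 2
  · subst h2; exact den2 g
  · by_cases h3 : p = 3
    · subst h3; exact den3 g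
    · exact den5 hp h2 h3 g

end Pool.Agent.U358.LS.DEN
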